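import Pool.Agent.Helper2.BI.St

set_option autoImplicit false

namespace Pool.Agent.Helper80.BI

open Pool.Agent.Helper2.BI
open Finset Filter
open N063b59cf

/-- the set of part (A) -/
def SA (X H : ℕ) : Set ℕ := {v : ℕ | v ≤ X ∧ ∃ u, LargestPrimeRepeated u v ∧ H ≤ v - u}

theorem SA_sub (X H : ℕ) : SA X H ⊆ (Icc 1 X : Finset ℕ) := by
  rintro v ⟨hv, u, hu, -⟩
  have h1 := hu.1
  have h2 := hu.2.1
  simp only [Finset.coe_Icc, Set.mem_Icc]
  omega

open Classical in
theorem SA_cov {V₀ : ℕ}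
    (hV₀ : ∀ v : ℕ, V₀ ≤ v → ∀ u : ℕ, LargestPrimeRepeated u v → 12 ≤ v - u →
      ∃ p m : ℕ, p.Prime ∧ u ≤ m ∧ m ≤ v ∧ p ^ 2 ∣ m ∧ v - u < p ∧ p ^ 2 ≤ v ∧
        ∀ n, u ≤ n → n ≤ v → ∀ q : ℕ, q.Prime → q ∣ n → q ≤ p)
    (X H : ℕ) (hH : 12 ≤ H) :
    SA X H ⊆ (((if H < V₀ then Icc 1 V₀ else ∅) ∪
      (Icc 1 (Nat.log 2 X)).biUnion (fun s => Es (2 ^ s) H) : Finset ℕ) : Set ℕ) := by
  rintro v ⟨hv, u, hu, hvu⟩
  have h1 := hu.1
  have h2 := hu.2.1
  rw [Finset.coe_union, Set.mem_union]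
  by_cases hv0 : v ≤ V₀
  · left
    rw [if_pos (by omega)]
    simp only [Finset.coe_Icc, Set.mem_Icc]
    omega
  · right
    obtain ⟨p, m, -, -, -, -, -, hpv, hq⟩ := hV₀ v (by omega) u hu (by omega)
    set s := Nat.log 2 (v - 1) with hs
    have hs1 : 2 ^ s ≤ v - 1 := Nat.pow_log_le_self 2 (by omega)
    have hs2 : v - 1 < 2 ^ (s + 1) := Nat.lt_pow_succ_log_self (by norm_num) (v - 1)
    have hs3 : 1 ≤ s := by
      by_contra hc
      have hs0 : s = 0 := by omega
      rw [hs0] at hs2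
      norm_num at hs2
      omega
    have hs4 : s ≤ Nat.log 2 X := Nat.log_mono_right (by omega)
    rw [pow_succ] at hs2
    rw [Finset.mem_coe, Finset.mem_biUnion]
    refine ⟨s, Finset.mem_Icc.2 ⟨hs3, hs4⟩, ?_⟩
    rw [Es, Finset.mem_filter]
    refine ⟨Finset.mem_Ioc.2 ⟨by omega, by omega⟩, ?_⟩
    intro j hj q hqp hq2 hdvd
    have h3 : q ≤ p := hq (v - j) (by omega) (by omega) q hqp hdvd
    have h4 : q ^ 2 ≤ p ^ 2 := Nat.pow_le_pow_left h3 2
    omega

theorem hFA : FA := by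
  rintro ⟨C, hC0, hC⟩ ⟨V₀, hV₀⟩
  refine ⟨(V₀ : ℝ) ^ 2 + 2 * C + 18, by positivity, ?_⟩
  intro X H hX hH
  change ((SA X H).ncard : ℝ) ≤ _
  have hXr : (2 : ℝ) ≤ X := by exact_mod_cast hX
  have hHr : (1 : ℝ) ≤ H := by exact_mod_cast hH
  have hl2 := Real.log_two_gt_d9
  have hL : Real.log 2 ≤ Real.log X := Real.log_le_log (by norm_num) hXr
  have hL0 : (0 : ℝ) < Real.log X := by linarith
  have hXL : (1 : ℝ) ≤ X * Real.log X := by nlinarith
  have hR0 : (0 : ℝ) < X * Real.log X / H := by positivity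
  have hV0 : (0 : ℝ) ≤ (V₀ : ℝ) ^ 2 := by positivity
  rcases lt_or_ge H 12 with hH12 | hH12
  · have h1 : (SA X H).ncard ≤ X := by
      have := Set.ncard_le_ncard (SA_sub X H) (Finset.finite_toSet _)
      rw [Set.ncard_coe_finset, Nat.card_Icc] at this
      omega
    have h2 : ((SA X H).ncard : ℝ) ≤ X := by exact_mod_cast h1
    have hH12r : (H : ℝ) ≤ 12 := by exact_mod_cast hH12.le
    have h3 : (X : ℝ) ≤ 18 * (X * Real.log X / H) := by
      rw [← mul_div_assoc, le_div_iff₀ (by linarith)]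
      have h4 : (12 : ℝ) ≤ 18 * Real.log X := by linarith
      calc (X : ℝ) * H ≤ X * 12 := by gcongr
        _ ≤ X * (18 * Real.log X) := by gcongr
        _ = _ := by ring
    calc ((SA X H).ncard : ℝ) ≤ 18 * (X * Real.log X / H) := h2.trans h3
      _ ≤ _ := by
        apply mul_le_mul_of_nonneg_right _ hR0.le
        linarith
  · have h1 := Set.ncard_le_ncard (SA_cov hV₀ X H hH12) (Finset.finite_toSet _)
    rw [Set.ncard_coe_finset] at h1
    have h2 := h1.trans (Finset.card_union_le _ _)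
    have h3 : ((SA X H).ncard : ℝ) ≤ ((if H < V₀ then Icc 1 V₀ else ∅ : Finset ℕ).card : ℝ) +
        (((Icc 1 (Nat.log 2 X)).biUnion (fun s => Es (2 ^ s) H)).card : ℝ) := by
      exact_mod_cast h2
    have h4 : ((if H < V₀ then Icc 1 V₀ else ∅ : Finset ℕ).card : ℝ) ≤
        (V₀ : ℝ) ^ 2 * (X * Real.log X / H) := by
      split_ifs with hc
      · rw [Nat.card_Icc]
        simp only [Nat.add_sub_cancel]
        have hcr : (H : ℝ) ≤ V₀ := by exact_mod_cast hc.le
        rw [← mul_div_assoc, le_div_iff₀ (by linarith)]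
        have hV : (0 : ℝ) ≤ V₀ := Nat.cast_nonneg _
        calc (V₀ : ℝ) * H ≤ V₀ * V₀ := by gcongr
          _ = (V₀ : ℝ) ^ 2 * 1 := by ring
          _ ≤ (V₀ : ℝ) ^ 2 * (X * Real.log X) := by gcongr
      · simp only [Finset.card_empty, Nat.cast_zero]
        positivity
    have h5 : (((Icc 1 (Nat.log 2 X)).biUnion (fun s => Es (2 ^ s) H)).card : ℝ) ≤
        2 * C * (X * Real.log X / H) := by
      have h6 : (((Icc 1 (Nat.log 2 X)).biUnion (fun s => Es (2 ^ s) H)).card : ℝ) ≤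
          ∑ s ∈ Icc 1 (Nat.log 2 X), ((Es (2 ^ s) H).card : ℝ) := by
        exact_mod_cast Finset.card_biUnion_le
      have h7 : ∀ s ∈ Icc 1 (Nat.log 2 X), ((Es (2 ^ s) H).card : ℝ) ≤
          C * (Real.log X / H) * 2 ^ s := by
        intro s hs
        rw [Finset.mem_Icc] at hs
        have h8 : 2 ≤ 2 ^ s := by
          calc 2 = 2 ^ 1 := by norm_num
            _ ≤ 2 ^ s := Nat.pow_le_pow_right (by norm_num) hs.1
        have h9 := hC (2 ^ s) H h8 hH
        have h10 : 2 ^ s ≤ X :=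
          (Nat.pow_le_pow_right (by norm_num) hs.2).trans (Nat.pow_log_le_self 2 (by omega))
        have h11 : Real.log ((2 ^ s : ℕ) : ℝ) ≤ Real.log X := by
          apply Real.log_le_log
          · positivity
          · exact_mod_cast h10
        calc ((Es (2 ^ s) H).card : ℝ) ≤ C * (((2 ^ s : ℕ) : ℝ) * Real.log ((2 ^ s : ℕ) : ℝ) / H) := h9
          _ ≤ C * (((2 ^ s : ℕ) : ℝ) * Real.log X / H) := by gcongr
          _ = _ := by push_cast; ring
      have h12 : ∑ s ∈ Icc 1 (Nat.log 2 X), (2 : ℝ) ^ s ≤ 2 * X := by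
        have h13 : ∑ s ∈ Icc 1 (Nat.log 2 X), (2 : ℝ) ^ s ≤ ∑ s ∈ range (Nat.log 2 X + 1), (2 : ℝ) ^ s := by
          apply Finset.sum_le_sum_of_subset_of_nonneg
          · intro s hs
            rw [Finset.mem_Icc] at hs
            rw [Finset.mem_range]
            omega
          · intro s _ _
            positivity
        have h14 : ∑ s ∈ range (Nat.log 2 X + 1), (2 : ℝ) ^ s = 2 ^ (Nat.log 2 X + 1) - 1 := by
          have := geom_sum_eq (show (2 : ℝ) ≠ 1 by norm_num) (Nat.log 2 X + 1)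
          rw [this]
          norm_num
        have h15 : 2 ^ Nat.log 2 X ≤ X := Nat.pow_log_le_self 2 (by omega)
        have h16 : ((2 : ℝ) ^ Nat.log 2 X) ≤ X := by exact_mod_cast h15
        rw [pow_succ] at h14
        linarith
      calc _ ≤ ∑ s ∈ Icc 1 (Nat.log 2 X), ((Es (2 ^ s) H).card : ℝ) := h6
        _ ≤ ∑ s ∈ Icc 1 (Nat.log 2 X), C * (Real.log X / H) * 2 ^ s := Finset.sum_le_sum h7
        _ = C * (Real.log X / H) * ∑ s ∈ Icc 1 (Nat.log 2 X), (2 : ℝ) ^ s := by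
          rw [Finset.mul_sum]
        _ ≤ C * (Real.log X / H) * (2 * X) := by
          apply mul_le_mul_of_nonneg_left h12
          positivity
        _ = _ := by ring
    calc ((SA X H).ncard : ℝ) ≤ (V₀ : ℝ) ^ 2 * (X * Real.log X / H) +
        2 * C * (X * Real.log X / H) := by linarith
      _ = ((V₀ : ℝ) ^ 2 + 2 * C) * (X * Real.log X / H) := by ring
      _ ≤ _ := by
        apply mul_le_mul_of_nonneg_right _ hR0.le
        linarith

end Pool.Agent.Helper80.BI
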